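import Pool.Agent.W733.JA.Stmts

/-!
# JC4: a `C¹` function on a closed submanifold is Lipschitz for the ambient distance
-/

set_option autoImplicit false

open scoped Manifold ContDiff Topology ENNReal
open Set Filter Metric

namespace Pool.Agent.W689.JA

open Pool.Agent.H721R2 Pool.Agent.W733.JA

universe u v

section

variable {E : Type u} [NormedAddCommGroup E] [NormedSpace ℝ E] [FiniteDimensional ℝ E]
  {M : Type v} [TopologicalSpace M] [ChartedSpace E M] [IsManifold 𝓘(ℝ, E) 1 M]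
  {F : Type*} [NormedAddCommGroup F] [NormedSpace ℝ F]

theorem near_diag (e : M → F) (he : ContMDiff 𝓘(ℝ, E) 𝓘(ℝ, F) 1 e)
    (hinj : ∀ x, Function.Injective (dm E e x)) (ψ : M → ℝ)
    (hψ : ContMDiff 𝓘(ℝ, E) 𝓘(ℝ, ℝ) 1 ψ) (x₀ : M) :
    ∃ W ∈ 𝓝 x₀, ∃ L : ℝ, ∀ x ∈ W, ∀ y ∈ W, |ψ x - ψ y| ≤ L * ‖e x - e y‖ := by
  obtain ⟨⟨C, hC0, hC⟩, h2⟩ := local_all e he hinj ψ hψ x₀
  obtain ⟨W, hW, r, -, h3, -, -⟩ := h2 (1 / 2) (by norm_num)
  refine ⟨W ∩ {x | ∀ v : E, ‖dm E (extChartAt 𝓘(ℝ, E) x₀) x v‖ ≤ C * ‖dm E e x v‖ ∧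
      ‖dm E ψ x v‖ ≤ C * ‖dm E (extChartAt 𝓘(ℝ, E) x₀) x v‖}, inter_mem hW hC,
    1 / 2 + C * (C * (3 / 2)), ?_⟩
  rintro x ⟨hx, hx'⟩ y ⟨hy, -⟩
  obtain ⟨v, hv1, hv2⟩ := h3 x hx y hy
  obtain ⟨h4, h5⟩ := hx' v
  set d := ‖e y - e x‖ with hd
  have h6 : ‖dm E e x v‖ ≤ 3 / 2 * d := by
    have h7 : ‖dm E e x v‖ ≤ ‖e y - e x‖ + ‖e y - e x - dm E e x v‖ := by
      have := norm_sub_le (e y - e x) (e y - e x - dm E e x v)
      have h8 : e y - e x - (e y - e x - dm E e x v) = dm E e x v := by abel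
      rwa [h8] at this
    linarith
  have h9 : ‖ψ y - ψ x‖ ≤ ‖ψ y - ψ x - dm E ψ x v‖ + ‖dm E ψ x v‖ := by
    have := norm_add_le (ψ y - ψ x - dm E ψ x v) (dm E ψ x v)
    have h8 : ψ y - ψ x - dm E ψ x v + dm E ψ x v = ψ y - ψ x := by abel
    rwa [h8] at this
  have h10 : ‖dm E ψ x v‖ ≤ C * (C * (3 / 2 * d)) := by
    refine h5.trans (mul_le_mul_of_nonneg_left (h4.trans ?_) hC0.le)
    exact mul_le_mul_of_nonneg_left h6 hC0.le
  have h11 : |ψ x - ψ y| = ‖ψ y - ψ x‖ := by rw [abs_sub_comm]; rfl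
  have h12 : ‖e x - e y‖ = d := norm_sub_rev _ _
  rw [h11, h12]
  nlinarith [h9, h10, hv2]

theorem lip_global [T2Space M] [CompactSpace M] (e : M → F)
    (he : ContMDiff 𝓘(ℝ, E) 𝓘(ℝ, F) 1 e) (hei : Function.Injective e)
    (hinj : ∀ x, Function.Injective (dm E e x)) (ψ : M → ℝ)
    (hψ : ContMDiff 𝓘(ℝ, E) 𝓘(ℝ, ℝ) 1 ψ) :
    ∃ L : ℝ, ∀ x y, |ψ x - ψ y| ≤ L * ‖e x - e y‖ := by
  have key : ∃ L : ℝ, ∀ z ∈ (univ : Set (M × M)),
      |ψ z.1 - ψ z.2| ≤ L * ‖e z.1 - e z.2‖ := by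
    refine isCompact_univ.induction_on
      (p := fun S : Set (M × M) => ∃ L : ℝ, ∀ z ∈ S, |ψ z.1 - ψ z.2| ≤ L * ‖e z.1 - e z.2‖)
      ⟨0, fun z hz => absurd hz (notMem_empty z)⟩ ?_ ?_ ?_
    · rintro s t hst ⟨L, hL⟩
      exact ⟨L, fun z hz => hL z (hst hz)⟩
    · rintro s t ⟨L, hL⟩ ⟨L', hL'⟩
      refine ⟨max L L', ?_⟩
      rintro z (hz | hz)
      · exact (hL z hz).trans (mul_le_mul_of_nonneg_right (le_max_left _ _) (norm_nonneg _))
      · exact (hL' z hz).trans (mul_le_mul_of_nonneg_right (le_max_right _ _) (norm_nonneg _))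
    · rintro ⟨a, b⟩ -
      rw [nhdsWithin_univ]
      by_cases hab : a = b
      · subst hab
        obtain ⟨W, hW, L, hL⟩ := near_diag e he hinj ψ hψ a
        exact ⟨W ×ˢ W, prod_mem_nhds hW hW, L, fun z hz => hL _ hz.1 _ hz.2⟩
      · have hpos : 0 < ‖e a - e b‖ := norm_pos_iff.mpr (sub_ne_zero.mpr fun h => hab (hei h))
        have hc1 : Continuous fun z : M × M => ‖e z.1 - e z.2‖ :=
          ((he.continuous.comp continuous_fst).sub (he.continuous.comp continuous_snd)).norm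
        have hc2 : Continuous fun z : M × M => |ψ z.1 - ψ z.2| :=
          ((hψ.continuous.comp continuous_fst).sub (hψ.continuous.comp continuous_snd)).abs
        have e1 : ∀ᶠ z : M × M in 𝓝 (a, b), ‖e a - e b‖ / 2 < ‖e z.1 - e z.2‖ :=
          hc1.continuousAt.eventually (lt_mem_nhds (by linarith : ‖e a - e b‖ / 2 < ‖e a - e b‖))
        have e2 : ∀ᶠ z : M × M in 𝓝 (a, b), |ψ z.1 - ψ z.2| < |ψ a - ψ b| + 1 :=
          hc2.continuousAt.eventually (gt_mem_nhds (by linarith : |ψ a - ψ b| < |ψ a - ψ b| + 1))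
        refine ⟨_, e1.and e2, (|ψ a - ψ b| + 1) / (‖e a - e b‖ / 2), ?_⟩
        rintro z ⟨hz1, hz2⟩
        rw [div_mul_eq_mul_div, le_div_iff₀ (by linarith)]
        have h0 : 0 ≤ |ψ a - ψ b| := abs_nonneg _
        exact mul_le_mul hz2.le hz1.le (by linarith) (by linarith)
  obtain ⟨L, hL⟩ := key
  exact ⟨L, fun x y => hL (x, y) (mem_univ _)⟩

end

/-- **JC4** -/
theorem c4 : PropC4.{u, v} := by
  intro E _ _ _ M _ _ _ _ _ m e he hei hinj ψ hψ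
  haveI : IsManifold 𝓘(ℝ, E) 1 M := IsManifold.of_le (n := ∞) (by exact_mod_cast le_top)
  exact lip_global e (he.of_le (by exact_mod_cast le_top)) hei hinj ψ hψ

end Pool.Agent.W689.JA
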